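import Mathlib
import Pool.Agent.Lib.MP_5b74a0_ag.Defs
import Pool.Agent.Lib.MP_5b74a0_ag.Topo
import Pool.Agent.Lib.MP_5b74a0_ag.Pole

noncomputable section

namespace Pool.Agent.Results.MP_5b74a0_ag.SmoothDivisor

open Complex Pool.Agent.Lib.MP_5b74a0_ag

/-- The punctured regular neighbourhood of `D = ℂ^* × {0}` in `Y = ℂ^* × ℂ`. -/
abbrev TStar : Type := {p : ℂ × ℂ // p.1 ≠ 0 ∧ p.2 ≠ 0 ∧ ‖p.2‖ < 1}

/-- The base point. -/
def x0 : TStar := ⟨(1, 1 / 2), by norm_num⟩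

/-- The boundary of a small disk transversal to `D`. -/
def meridian : Path x0 x0 where
  toFun θ := ⟨(1, 1 / 2 * exp (2 * Real.pi * I * (θ : ℝ))), by
    refine ⟨one_ne_zero, by simp, ?_⟩
    have : (2 * Real.pi * I * ((θ : ℝ) : ℂ)) = ((2 * Real.pi * (θ : ℝ) : ℝ) : ℂ) * I := by
      push_cast; ring
    rw [this, norm_mul, norm_exp_ofReal_mul_I]
    norm_num⟩
  continuous_toFun := by fun_prop
  source' := by simp [x0]
  target' := by simp [x0, exp_two_pi_mul_I]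

/-- The loop going once around the origin in the first coordinate. -/
def longitude : Path x0 x0 where
  toFun θ := ⟨(exp (2 * Real.pi * I * (θ : ℝ)), 1 / 2), by
    refine ⟨exp_ne_zero _, by norm_num, by norm_num⟩⟩
  continuous_toFun := by fun_prop
  source' := by simp [x0]
  target' := by simp [x0, exp_two_pi_mul_I]

/-- The function `z w ^ m` on the punctured neighbourhood. -/
def fm (m : ℕ) : C(TStar, ℂ) := ⟨fun p => p.1.1 * p.1.2 ^ m, by fun_prop⟩

theorem fm_ne_zero (m : ℕ) (p : TStar) : fm m p ≠ 0 :=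
  mul_ne_zero p.2.1 (pow_ne_zero _ p.2.2.1)

theorem pathConnected (m : ℕ) : PathConnectedSpace (CC (fm m)) := by
  have hH : PathConnectedSpace {u : ℂ // u.re < 0} := by
    have h1 : Convex ℝ {u : ℂ | u.re < 0} := convex_halfSpace_re_lt 0
    have h2 : IsPathConnected {u : ℂ | u.re < 0} := h1.isPathConnected ⟨-1, by simp⟩
    exact isPathConnected_iff_pathConnectedSpace.mp h2
  let g : ℂ × {u : ℂ // u.re < 0} → CC (fm m) := fun q =>
    ⟨(q.1, ⟨(exp (2 * Real.pi * I * q.1 - m * q.2.1), exp q.2.1), exp_ne_zero _, exp_ne_zero _, by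
      rw [norm_exp]
      exact Real.exp_lt_one_iff.mpr q.2.2⟩), by
      change _ = exp (2 * Real.pi * I * q.1 - m * q.2.1) * exp q.2.1 ^ m
      rw [← exp_nat_mul, ← exp_add]
      congr 1
      ring⟩
  have hg : Continuous g := by
    refine Continuous.subtype_mk ?_ _
    fun_prop
  have hsurj : Function.Surjective g := by
    rintro ⟨⟨s, ⟨⟨z, w⟩, hz, hw, hw1⟩⟩, hs⟩
    have hlog : (log w).re < 0 := by
      rw [log_re]
      exact Real.log_neg (norm_pos_iff.mpr hw) hw1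
    refine ⟨(s, ⟨log w, hlog⟩), ?_⟩
    apply Subtype.ext
    refine Prod.ext rfl ?_
    apply Subtype.ext
    refine Prod.ext ?_ ?_
    · change exp (2 * Real.pi * I * s - m * log w) = z
      rw [exp_sub, exp_nat_mul, exp_log hw]
      have hs' : exp (2 * Real.pi * I * s) = z * w ^ m := hs
      rw [hs', mul_div_cancel_right₀ _ (pow_ne_zero _ hw)]
    · exact exp_log hw
  exact hsurj.pathConnectedSpace hg

/-- The rotation of the first coordinate. -/
def rot : C(unitInterval × TStar, TStar) where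
  toFun q := ⟨(exp (2 * Real.pi * I * ((q.1 : ℝ) : ℂ)) * q.2.1.1, q.2.1.2),
    mul_ne_zero (exp_ne_zero _) q.2.2.1, q.2.2.2.1, q.2.2.2.2⟩
  continuous_toFun := by fun_prop

theorem deckCoh_id (m i : ℕ) : deckCohC (fm m) i = LinearMap.id := by
  refine deckCohC_eq_id (fm m) rot ?_ ?_ ?_ i
  · intro x
    apply Subtype.ext
    simp [rot]
  · intro x
    apply Subtype.ext
    simp [rot, exp_two_pi_mul_I]
  · intro θ x
    change _ * x.1.1 * x.1.2 ^ m = _ * (x.1.1 * x.1.2 ^ m)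
    rw [mul_assoc]

/-- A point of the cover above the base point. -/
def e0 (m : ℕ) : projC (fm m) ⁻¹' {x0} :=
  ⟨⟨(log ((1 / 2) ^ m) / (2 * Real.pi * I), x0), by
    rw [mul_div_cancel₀ _ two_pi_I_ne_zero, exp_log (pow_ne_zero _ (by norm_num))]
    simp [fm, x0]⟩, rfl⟩

theorem holonomy_meridian (m : ℕ) :
    holonomy (fm m) (fm_ne_zero m) x0 (e0 m)
      (FundamentalGroup.fromPath (Path.Homotopic.Quotient.mk meridian)) =
      Multiplicative.ofAdd (m : ℤ) := by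
  refine holonomy_eq (fm m) (fm_ne_zero m) x0 (e0 m) meridian
    ⟨fun θ => (e0 m).1.1.1 + m * (θ : ℝ), by fun_prop⟩ ?_ (by simp) m (by simp)
  intro θ
  have h := (e0 m).1.2
  change exp (2 * Real.pi * I * ((e0 m).1.1.1 + m * (θ : ℝ))) =
    1 * (1 / 2 * exp (2 * Real.pi * I * (θ : ℝ))) ^ m
  rw [mul_add, exp_add, h, mul_pow, ← exp_nat_mul]
  have : (e0 m).1.1.2 = x0 := rfl
  rw [this]
  simp only [fm, x0, ContinuousMap.coe_mk]
  rw [mul_assoc]
  congr 3
  ring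

theorem holonomy_longitude (m : ℕ) :
    holonomy (fm m) (fm_ne_zero m) x0 (e0 m)
      (FundamentalGroup.fromPath (Path.Homotopic.Quotient.mk longitude)) =
      Multiplicative.ofAdd (1 : ℤ) := by
  refine holonomy_eq (fm m) (fm_ne_zero m) x0 (e0 m) longitude
    ⟨fun θ => (e0 m).1.1.1 + (θ : ℝ), by fun_prop⟩ ?_ (by simp) 1 (by simp)
  intro θ
  have h := (e0 m).1.2
  change exp (2 * Real.pi * I * ((e0 m).1.1.1 + (θ : ℝ))) =
    exp (2 * Real.pi * I * (θ : ℝ)) * (1 / 2) ^ m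
  rw [mul_add, exp_add, h]
  have : (e0 m).1.1.2 = x0 := rfl
  rw [this]
  simp only [fm, x0, ContinuousMap.coe_mk]
  ring

/-- The infinite cyclic zeta function of `(Y, D, Δ)`. -/
def zeta (m : ℕ+) : PowerSeries Mot :=
  zetaSNC (J := Unit) (fun _ => (m : ℕ)) (fun _ => 1) (fun _ => mot (torus m))

theorem zeta_eq (m : ℕ+) :
    zeta m = PowerSeries.C (mot (torus m)) *
      (PowerSeries.C (LefInv ^ 1) * PowerSeries.X ^ (m : ℕ) * geom 1 m) := by
  have h : (Finset.univ.filter (fun I : Finset Unit => I.Nonempty)) = {{()}} := by decide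
  simp [zeta, zetaSNC, h]

theorem exists_pole (m : ℕ+) {S : Finset (ℕ × ℕ)} (hS : IsSetOfPoles S (zeta m)) :
    ∃ p ∈ S, p.2 = p.1 * m := by
  by_contra hcon
  simp only [not_exists, not_and] at hcon
  obtain ⟨τ, hτ⟩ := exists_root m.pos Geo.qq
  have hq : algebraMap Geo.Val L Geo.qq ≠ 0 := by
    rw [Ne, map_eq_zero]
    exact Geo.qq_ne_zero
  have h1 : RegularAt τ (psiS (zeta m)) := by
    refine regularAt_of_mem (fun p hp => (hS.1 p hp).2) (fun p hp h => ?_) hS.2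
    apply hcon p hp
    have h2 : (τ ^ p.2) ^ (m : ℕ) = (algebraMap Geo.Val L (Geo.qq ^ p.1)) ^ (m : ℕ) := by
      rw [h]
    rw [← pow_mul, mul_comm, pow_mul, hτ, map_pow, ← pow_mul] at h2
    exact pow_eq_of_pow_eq h2
  refine not_regularAt (τ := τ) (Polynomial.C (Geo.qq - 1) *
    (Polynomial.C Geo.qq⁻¹ * Polynomial.X ^ (m : ℕ))) (den 1 m) ?_ ?_ ?_ h1
  · rw [zeta_eq]
    simp only [map_mul, map_pow, psiS_C, psiS_X, psi_torus, psi_LefInv]
    rw [mul_assoc, mul_assoc, mul_assoc, psiS_geom 1 m.pos]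
    simp
  · simp only [den, map_sub, map_one, map_mul, Polynomial.aeval_C, map_pow, Polynomial.aeval_X,
      map_inv₀, pow_one, hτ]
    rw [inv_mul_cancel₀ hq, sub_self]
  · simp only [map_sub, map_one, map_mul, Polynomial.aeval_C, map_pow, Polynomial.aeval_X,
      map_inv₀, hτ]
    rw [inv_mul_cancel₀ hq, mul_one, sub_ne_zero]
    intro h
    apply Geo.qq_pow_ne_one one_pos
    rw [pow_one]
    apply (algebraMap Geo.Val L).injective
    rw [h, map_one]

/-- The `ℤ/m`-cover of `T^*` attached to `Δ` modulo `m` is the pull-back of `u ↦ u ^ m` under the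
retraction `(z, w) ↦ z`. -/
theorem exists_root_cover (m : ℕ+) : ∃ u : C(CC (fm m), ℂ),
    ∀ q, u q ^ (m : ℕ) = (projC (fm m) q).1.1 ∧
      u (deckC (fm m) q) = exp (2 * Real.pi * I / (m : ℕ)) * u q := by
  have hm : ((m : ℕ) : ℂ) ≠ 0 := by exact_mod_cast m.pos.ne'
  refine ⟨⟨fun q => exp (2 * Real.pi * I * q.1.1 / (m : ℕ)) / q.1.2.1.2, ?_⟩, fun q => ⟨?_, ?_⟩⟩
  · refine Continuous.div (by fun_prop) (by fun_prop) fun q => q.1.2.2.2.1
  · have h := q.2
    have hw : q.1.2.1.2 ≠ 0 := q.1.2.2.2.1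
    change (exp (2 * Real.pi * I * q.1.1 / (m : ℕ)) / q.1.2.1.2) ^ (m : ℕ) = q.1.2.1.1
    rw [div_pow, ← exp_nat_mul, mul_div_cancel₀ _ hm, h]
    exact mul_div_cancel_right₀ _ (pow_ne_zero _ hw)
  · change exp (2 * Real.pi * I * (q.1.1 + 1) / (m : ℕ)) / q.1.2.1.2 =
      exp (2 * Real.pi * I / (m : ℕ)) * (exp (2 * Real.pi * I * q.1.1 / (m : ℕ)) / q.1.2.1.2)
    rw [← mul_div_assoc, ← exp_add]
    congr 2
    ring

/-- **Theorem.** -/
theorem result (m : ℕ+) (hm : 2 ≤ (m : ℕ)) :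
    ∃ Δ : FundamentalGroup TStar x0 →* Multiplicative ℤ,
      Δ (FundamentalGroup.fromPath (Path.Homotopic.Quotient.mk meridian)) =
        Multiplicative.ofAdd ((m : ℕ) : ℤ) ∧
      Δ (FundamentalGroup.fromPath (Path.Homotopic.Quotient.mk longitude)) =
        Multiplicative.ofAdd (1 : ℤ) ∧
      IsInfiniteCyclicCover x0 Δ (proj (fm m)) (deck (fm m)) ∧
      (∃ u : C(CyclicCover (fm m), ℂ), ∀ q, u q ^ (m : ℕ) = (proj (fm m) q).1.1 ∧
        u (deck (fm m) q) = exp (2 * Real.pi * I / (m : ℕ)) * u q) ∧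
      (∀ i : ℕ, deckCoh (fm m) i = LinearMap.id) ∧
      ∀ S : Finset (ℕ × ℕ), IsSetOfPoles S (zeta m) →
        ∃ p ∈ S, p.2 = p.1 * m ∧ ∀ i : ℕ, ¬ Module.End.HasEigenvalue (deckCoh (fm m) i)
          (exp (-(2 * Real.pi * I * ((p.1 : ℂ) / (p.2 : ℂ))))) := by
  have := pathConnected m
  refine ⟨holonomy (fm m) (fm_ne_zero m) x0 (e0 m), holonomy_meridian m, holonomy_longitude m,
    isInfiniteCyclicCover_of (fm m) (isInfiniteCyclicCover (fm m) (fm_ne_zero m) x0 (e0 m)),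
    exists_root_cover m, fun i => deckCoh_eq_of (fm m) i (deckCoh_id m i), fun S hS => ?_⟩
  obtain ⟨p, hp, hpm⟩ := exists_pole m hS
  refine ⟨p, hp, hpm, fun i => not_hasEigenvalue (fm m) i
    (deckCoh_eq_of (fm m) i (deckCoh_id m i)) ?_⟩
  intro h
  rw [exp_eq_one_iff] at h
  obtain ⟨n, hn⟩ := h
  have h1 : (p.1 : ℂ) ≠ 0 := by
    have := (hS.1 p hp).1
    exact_mod_cast this.ne'
  have h2 : ((m : ℕ) : ℂ) ≠ 0 := by
    exact_mod_cast m.pos.ne'
  have h3 : (p.1 : ℂ) / (p.2 : ℂ) = 1 / ((m : ℕ) : ℂ) := by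
    rw [hpm]
    push_cast
    field_simp
  rw [h3] at hn
  have h4 : (2 * Real.pi * I : ℂ) ≠ 0 := two_pi_I_ne_zero
  have h5 : (-1 : ℂ) = n * ((m : ℕ) : ℂ) := by
    field_simp at hn
    linear_combination hn
  have h6 : (-1 : ℤ) = n * (m : ℕ) := by exact_mod_cast h5
  have h7 : ((m : ℕ) : ℤ) ∣ 1 := ⟨-n, by linarith⟩
  have h8 := Int.le_of_dvd one_pos h7
  omega

end Pool.Agent.Results.MP_5b74a0_ag.SmoothDivisor
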